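import Pool.Agent.Lib.MP_144d21_co.XU.Iface

set_option autoImplicit false

namespace Pool.Agent.Xu.H09

open Finset Pool.Agent.Xu

theorem cols_eq_of_agree {V : Type} [Fintype V] [DecidableEq V] {G : SimpleGraph V}
    {S : Finset V} {c c' : V → ℕ} (hc : c ∈ cols G S 4) (hc' : c' ∈ cols G S 4)
    (h : ∀ u ∈ S, c' u = c u) : c' = c := by
  rw [mem_cols] at hc hc'
  funext u
  by_cases hu : u ∈ S
  · exact h u hu
  · rw [hc.2.1 u hu, hc'.2.1 u hu]

theorem cM_self {V : Type} [Fintype V] [DecidableEq V] {G : SimpleGraph V}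
    {S : Finset V} {c : V → ℕ} (hc : c ∈ cols G S 4) (i j : ℕ) : cM G S S i j c = 1 := by
  classical
  unfold cM
  rw [card_eq_one]
  refine ⟨c, ?_⟩
  ext c'
  rw [mem_filter, mem_singleton]
  constructor
  · rintro ⟨h1, h2, _⟩
    exact cols_eq_of_agree hc h1 h2
  · rintro rfl
    exact ⟨hc, fun _ _ => rfl, fun _ _ => rfl⟩

theorem cN_self {V : Type} [Fintype V] [DecidableEq V] {G : SimpleGraph V}
    {S : Finset V} {c : V → ℕ} (hc : c ∈ cols G S 4) : cN G S S c = 1 := by
  classical
  unfold cN
  rw [card_eq_one]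
  refine ⟨c, ?_⟩
  ext c'
  rw [mem_filter, mem_singleton]
  constructor
  · rintro ⟨h1, h2⟩
    exact cols_eq_of_agree hc h1 h2
  · rintro rfl
    exact ⟨hc, fun _ _ => rfl⟩

theorem entall (hC : StepcS) : EntallS := by
  intro V _ _ G S A hconn hA hne
  obtain ⟨n, hn⟩ : ∃ n, (S \ A).card = n := ⟨_, rfl⟩
  induction n generalizing A with
  | zero =>
    have h1 : A = S := by
      rw [card_eq_zero, sdiff_eq_empty_iff_subset] at hn
      exact subset_antisymm hA hn
    subst h1
    have h2 : ∑ c ∈ cols G A 4, ∑ s ∈ prs, Real.log (cM G A A s.1 s.2 c) = 0 := by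
      refine sum_eq_zero fun c hc => sum_eq_zero fun s _ => ?_
      rw [cM_self hc]
      simp
    have h3 : ∑ c ∈ cols G A 4, Real.log (cN G A A c) = 0 := by
      refine sum_eq_zero fun c hc => ?_
      rw [cN_self hc]
      simp
    rw [h2, h3, mul_zero]
  | succ n ih =>
    have hAS : A ≠ S := by
      rintro rfl
      simp at hn
    obtain ⟨u, hu, v, hvS, hvA, huv⟩ := hconn.2 A hA hne hAS
    have h1 := hC V G S A v u hvS hvA hA hu huv
    have h2 := ih (insert v A) (insert_subset hvS hA) (insert_nonempty _ _) (by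
      have h3 : S \ insert v A = (S \ A).erase v := by
        ext w
        simp only [mem_sdiff, mem_insert, mem_erase]
        tauto
      rw [h3, card_erase_of_mem (mem_sdiff.2 ⟨hvS, hvA⟩), hn]
      rfl)
    have h4 : ∑ c ∈ cols G S 4, ∑ s ∈ prs, (Real.log (cM G S A s.1 s.2 c) -
        Real.log (cM G S (insert v A) s.1 s.2 c)) =
        (∑ c ∈ cols G S 4, ∑ s ∈ prs, Real.log (cM G S A s.1 s.2 c)) -
        ∑ c ∈ cols G S 4, ∑ s ∈ prs, Real.log (cM G S (insert v A) s.1 s.2 c) := by
      rw [← sum_sub_distrib]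
      refine sum_congr rfl fun c _ => ?_
      rw [sum_sub_distrib]
    rw [h4, sum_sub_distrib, mul_sub] at h1
    linarith

theorem entf (hE : EntallS) (hT : TrisymS) (hF : FiberS) : EntfS := by
  intro V _ _ G S x y z K hconn hx hy hz hxy hyz hxz hne hK
  have hA : ({x, y, z} : Finset V) ⊆ S := by
    intro w hw
    simp only [mem_insert, mem_singleton] at hw
    rcases hw with rfl | rfl | rfl <;> assumption
  have h1 := hE V G S {x, y, z} hconn hA (insert_nonempty _ _)
  have hcard : (0 : ℝ) < (cols G S 4).card := by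
    exact_mod_cast card_pos.2 hne
  -- the right hand side
  have h2 : ∑ c ∈ cols G S 4, Real.log (cN G S {x, y, z} c) =
      (cols G S 4).card * Real.log ((cols G S 4).card / 24) := by
    rw [← nsmul_eq_mul, ← sum_const]
    refine sum_congr rfl fun c hc => ?_
    have h3 := hT V G S x y z hx hy hz hxy hyz hxz c hc
    have h4 : ((cols G S 4).card : ℝ) = 24 * cN G S {x, y, z} c := by
      rw [← h3]
      push_cast
      ring
    rw [h4]
    congr 1
    ring
  -- the left hand side
  have h3 : ∀ c ∈ cols G S 4, (K : ℝ) * Real.log 2 ≤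
      ∑ s ∈ prs, Real.log (cM G S {x, y, z} s.1 s.2 c) := by
    intro c hc
    have h4 : ∀ s ∈ prs, (kap G S c s.1 s.2 : ℝ) * Real.log 2 - Real.log 2 ≤
        Real.log (cM G S {x, y, z} s.1 s.2 c) := by
      intro s hs
      have h5 : s.1 < s.2 ∧ s.2 < 4 := by
        unfold prs at hs
        simp only [mem_insert, mem_singleton] at hs
        rcases hs with rfl | rfl | rfl | rfl | rfl | rfl <;> simp
      have h6 := hF V G S x y z s.1 s.2 hx hy hz hxy hyz hxz h5.1 h5.2 c hc
      have h7 : 0 < cM G S {x, y, z} s.1 s.2 c := by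
        by_contra h0
        have h8 : cM G S {x, y, z} s.1 s.2 c = 0 := by omega
        rw [h8, mul_zero] at h6
        have h9 : 0 < 2 ^ kap G S c s.1 s.2 := by positivity
        omega
      have h8 : ((2 : ℝ) ^ kap G S c s.1 s.2) ≤ 2 * (cM G S {x, y, z} s.1 s.2 c : ℝ) := by
        exact_mod_cast h6
      have h9 := Real.log_le_log (by positivity) h8
      rw [Real.log_pow, Real.log_mul (by norm_num) (by positivity)] at h9
      linarith
    have h5 := sum_le_sum h4
    rw [sum_sub_distrib, ← sum_mul] at h5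
    have h6 : ∑ s ∈ prs, Real.log 2 = 6 * Real.log 2 := by
      rw [sum_const, nsmul_eq_mul]
      have : prs.card = 6 := by decide
      rw [this]
      norm_num
    have h7 : (∑ s ∈ prs, (kap G S c s.1 s.2 : ℝ)) = (kap2 G S c : ℝ) := by
      unfold kap2
      push_cast
      rfl
    rw [h6, h7] at h5
    have h8 : ((K : ℝ) + 6) ≤ kap2 G S c := by exact_mod_cast hK c hc
    have h9 : 0 < Real.log 2 := Real.log_pos (by norm_num)
    nlinarith
  have h4 := sum_le_sum h3
  rw [sum_const, nsmul_eq_mul] at h4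
  rw [h2] at h1
  have h5 := h4.trans h1
  have h6 : ((cols G S 4).card : ℝ) * ((K : ℝ) * Real.log 2) ≤
      ((cols G S 4).card : ℝ) * (13 / 10 * Real.log ((cols G S 4).card / 24)) := by linarith
  exact le_of_mul_le_mul_left h6 hcard

end Pool.Agent.Xu.H09
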